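import Pool.Agent.V8H8.AB.Fibre

/-!
# The logarithm of the radical divided by a power of its logarithm
-/

set_option autoImplicit false

namespace Pool.Agent.V8H8.HS

open NumberField Height IsDedekindDomain MvPolynomial Pool.Agent.V8H8.AB

variable {K : Type} [Field K] [NumberField K]

/-- the logarithm of `H` -/
noncomputable def lh (p : K × K) : ℝ := W (I p) - ((I p).ncard : ℝ) * Real.log (W (I p))

/-- a map which keeps the primes up to finitely many of them -/
def Keep (f : K × K → K × K) : Prop := ∃ C : ℝ, 0 ≤ C ∧ ∃ S : Set (FinitePlace K), S.Finite ∧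
  ∀ p, Valid p → hh p ≤ C ∨ (Valid (f p) ∧ I p ⊆ I (f p) ∪ S)

theorem Keep.comp {N : ℕ} {f g : K × K → K × K} (hf : Good N f) (kf : Keep f) (kg : Keep g)
    (hN : 1 ≤ N) : Keep (fun p => g (f p)) := by
  obtain ⟨C, hC, hf⟩ := hf
  obtain ⟨D, hD, S, hS, kf⟩ := kf
  obtain ⟨E, hE, T, hT, kg⟩ := kg
  have hN' : (1 : ℝ) ≤ N := by exact_mod_cast hN
  refine ⟨C + D + E, by positivity, S ∪ T, hS.union hT, fun p hp => ?_⟩
  rcases kf p hp with h | ⟨h1, h2⟩
  · left
    linarith
  rcases hf p hp with h | ⟨-, h3, -, -⟩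
  · left
    linarith
  rcases kg (f p) h1 with h | ⟨k1, k2⟩
  · left
    have h5 : hh p ≤ N * hh p := le_mul_of_one_le_left (hh_nonneg p) hN'
    linarith
  right
  refine ⟨k1, ?_⟩
  intro v hv
  rcases h2 hv with h | h
  · rcases k2 h with h | h
    · exact Or.inl h
    · exact Or.inr (Or.inr h)
  · exact Or.inr (Or.inl h)

/-- the three cases -/
lemma I_cases {p : K × K} {v : FinitePlace K} (hv : v ∈ I p) :
    (v p.1 < v p.2 ∧ v (p.2 - p.1) = v p.2) ∨ (v p.2 < v p.1 ∧ v (p.2 - p.1) = v p.1) ∨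
      (v p.1 = v p.2 ∧ v (p.2 - p.1) < v p.2) := by
  have h1 : v (p.2 - p.1) ≤ max (v p.2) (v p.1) := by
    have := FinitePlace.add_le v p.2 (-p.1)
    rwa [← sub_eq_add_neg, map_neg_eq_map] at this
  have h2 : v p.2 ≤ max (v (p.2 - p.1)) (v p.1) := by
    have := FinitePlace.add_le v (p.2 - p.1) p.1
    rwa [sub_add_cancel] at this
  have h3 : v p.1 ≤ max (v (p.2 - p.1)) (v p.2) := by
    have := FinitePlace.add_le v (p.2 - p.1) (-p.2)
    rw [map_neg_eq_map] at this
    have e : p.2 - p.1 + -p.2 = -p.1 := by ring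
    rwa [e, map_neg_eq_map] at this
  rcases lt_trichotomy (v p.1) (v p.2) with h | h | h
  · left
    refine ⟨h, le_antisymm ?_ ?_⟩
    · rwa [max_eq_left h.le] at h1
    · rcases le_max_iff.1 h2 with h4 | h4
      · exact h4
      · exact absurd h (not_lt.2 h4)
  · right; right
    refine ⟨h, lt_of_le_of_ne ?_ ?_⟩
    · rwa [h, max_self] at h1
    · intro h4
      exact hv ⟨h, h4⟩
  · right; left
    refine ⟨h, le_antisymm ?_ ?_⟩
    · rwa [max_eq_right h.le] at h1
    · rcases le_max_iff.1 h3 with h4 | h4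
      · exact h4
      · exact absurd h (not_lt.2 h4)

lemma keep_pw (n : ℕ) (hn : 1 ≤ n) : Keep (pw n : K × K → K × K) := by
  obtain ⟨C, hC, h⟩ := good_pw (K := K) n hn
  refine ⟨C, hC, ∅, Set.finite_empty, fun p hp => ?_⟩
  rcases h p hp with h | ⟨h1, -⟩
  · exact Or.inl h
  refine Or.inr ⟨h1, fun v hv => Or.inl ?_⟩
  have y0 : 0 < v p.2 := FinitePlace.pos_iff.2 hp.2.1
  have x0 : 0 < v p.1 := FinitePlace.pos_iff.2 hp.1
  show ¬ (v (p.1 ^ n) = v (p.2 ^ n) ∧ v (p.2 ^ n - p.1 ^ n) = v (p.2 ^ n))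
  rw [map_pow, map_pow]
  rcases I_cases hv with ⟨h2, -⟩ | ⟨h2, -⟩ | ⟨h2, h3⟩
  · rintro ⟨h4, -⟩
    exact absurd h4 (pow_lt_pow_left₀ h2 x0.le (by omega)).ne
  · rintro ⟨h4, -⟩
    exact absurd h4 (pow_lt_pow_left₀ h2 y0.le (by omega)).ne'
  · rintro ⟨-, h4⟩
    have key : ∀ k : ℕ, v (p.2 ^ (k + 1) - p.1 ^ (k + 1)) < v p.2 ^ (k + 1) := by
      intro k
      induction k with
      | zero => simpa using h3
      | succ k ih =>
        have e : p.2 ^ (k + 1 + 1) - p.1 ^ (k + 1 + 1) =
            p.2 ^ (k + 1) * (p.2 - p.1) + p.1 * (p.2 ^ (k + 1) - p.1 ^ (k + 1)) := by ring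
        rw [e]
        refine (FinitePlace.add_le v _ _).trans_lt ?_
        rw [map_mul, map_mul, map_pow, max_lt_iff]
        constructor
        · calc v p.2 ^ (k + 1) * v (p.2 - p.1) < v p.2 ^ (k + 1) * v p.2 :=
                mul_lt_mul_of_pos_left h3 (by positivity)
            _ = v p.2 ^ (k + 1 + 1) := by ring
        · calc v p.1 * v (p.2 ^ (k + 1) - p.1 ^ (k + 1)) < v p.1 * v p.2 ^ (k + 1) :=
                mul_lt_mul_of_pos_left ih x0
            _ = v p.2 ^ (k + 1 + 1) := by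
                rw [h2]
                ring
    have h5 := key (n - 1)
    rw [Nat.sub_add_cancel hn] at h5
    exact absurd h4 h5.ne

lemma keep_bm (a b : ℕ) (ha : 1 ≤ a) (hb : 1 ≤ b) : Keep (bm a b : K × K → K × K) := by
  obtain ⟨C, hC, h⟩ := good_bm (K := K) a b ha hb
  have hbad1 := finite_ne_one (al_ne (K := K) (b := b) ha)
  have hbad2 := finite_ne_one (be_ne (K := K) ha hb)
  refine ⟨C, hC, {v | v (al K a b) ≠ 1} ∪ {v | v (be K a b) ≠ 1}, hbad1.union hbad2,
    fun p hp => ?_⟩
  rcases h p hp with h | ⟨h1, -⟩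
  · exact Or.inl h
  refine Or.inr ⟨h1, fun v hv => ?_⟩
  by_cases hB : v ∈ ({v | v (al K a b) ≠ 1} ∪ {v | v (be K a b) ≠ 1} : Set (FinitePlace K))
  · exact Or.inr hB
  left
  have b1 : v (al K a b) = 1 := by
    by_contra hc
    exact hB (Or.inl hc)
  have b2 : v (be K a b) = 1 := by
    by_contra hc
    exact hB (Or.inr hc)
  have y0 : 0 < v p.2 := FinitePlace.pos_iff.2 hp.2.1
  have x0 : 0 < v p.1 := FinitePlace.pos_iff.2 hp.1
  have d0 : 0 < v (p.2 - p.1) := FinitePlace.pos_iff.2 hp.2.2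
  have f1 : v (bm a b p).1 = v p.1 ^ a * v (p.2 - p.1) ^ b := by
    show v (al K a b * (p.1 ^ a * (p.2 - p.1) ^ b)) = _
    rw [map_mul, map_mul, map_pow, map_pow, b1, one_mul]
  have f2 : v (bm a b p).2 = v p.2 ^ (a + b) := by
    show v (be K a b * p.2 ^ (a + b)) = _
    rw [map_mul, map_pow, b2, one_mul]
  rintro ⟨h4, -⟩
  rw [f1, f2, pow_add] at h4
  rcases I_cases hv with ⟨h2, h3⟩ | ⟨h2, h3⟩ | ⟨h2, h3⟩
  · rw [h3] at h4
    have h5 := mul_right_cancel₀ (pow_pos y0 b).ne' h4
    exact absurd h5 (pow_lt_pow_left₀ h2 x0.le (by omega)).ne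
  · rw [h3, ← pow_add, ← pow_add] at h4
    exact absurd h4 (pow_lt_pow_left₀ h2 y0.le (by omega)).ne'
  · rw [h2] at h4
    have h5 := mul_left_cancel₀ (pow_pos y0 a).ne' h4
    exact absurd h5 (pow_lt_pow_left₀ h3 d0.le (by omega)).ne

lemma keep_sw : Keep (sw : K × K → K × K) := by
  obtain ⟨C, hC, h⟩ := good_sw (K := K)
  refine ⟨C, hC, ∅, Set.finite_empty, fun p hp => ?_⟩
  rcases h p hp with h | ⟨h1, -⟩
  · exact Or.inl h
  · refine Or.inr ⟨h1, ?_⟩
    rw [I_sw]
    exact Set.subset_union_left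

lemma keep_oc : Keep (oc : K × K → K × K) := by
  have g1 := (good_bm (K := K) 1 1 le_rfl le_rfl)
  have k1 := Keep.comp g1 (keep_bm (K := K) 1 1 le_rfl le_rfl) keep_sw (by norm_num)
  have g2 := g1.comp good_sw (by norm_num) (by norm_num)
  exact Keep.comp (f := fun p : K × K => sw (bm 1 1 p)) (g := bm 1 1) g2 k1
    (keep_bm (K := K) 1 1 le_rfl le_rfl) (by norm_num)

lemma keep_psi (n : ℕ) (hn : 1 ≤ n) : Keep (psi n : K × K → K × K) :=
  Keep.comp (f := pw n) (g := oc) (good_pw n hn) (keep_pw n hn) keep_oc hn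

/-- `W (I p) ≤ 3 h(p) + C` -/
lemma W_I_le : ∃ C : ℝ, 0 ≤ C ∧ ∀ p : K × K, Valid p → W (I p) ≤ 3 * hh p + C := by
  obtain ⟨C, hC, h⟩ := form_count 1 (X 1 - X 0 : MvPolynomial (Fin 2) K)
    ((isHomogeneous_X K (1 : Fin 2)).sub (isHomogeneous_X K (0 : Fin 2)))
  refine ⟨C, hC, fun p hp => ?_⟩
  have he : eval ![p.1, p.2] (X 1 - X 0 : MvPolynomial (Fin 2) K) = p.2 - p.1 := by simp
  obtain ⟨k1, k2⟩ := h p (by rw [he]; exact hp.2.2)
  rw [he] at k1 k2
  simp only [pow_one] at k1 k2
  obtain ⟨l1, l2⟩ := count ![p.1, p.2] 0 hp.1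
  obtain ⟨m1, m2⟩ := count ![p.1, p.2] 1 hp.2.1
  set A : Set (FinitePlace K) := {v | ∃ i, v ((![p.1, p.2] : Fin 2 → K) 0) <
    v ((![p.1, p.2] : Fin 2 → K) i)} with hA
  set B : Set (FinitePlace K) := {v | ∃ i, v ((![p.1, p.2] : Fin 2 → K) 1) <
    v ((![p.1, p.2] : Fin 2 → K) i)} with hB
  set D : Set (FinitePlace K) := {v | v (p.2 - p.1) < v p.1 ∨ v (p.2 - p.1) < v p.2} with hD
  have hsub : I p ⊆ (A ∪ B) ∪ D := by
    intro v hv
    rcases I_cases hv with ⟨h2, -⟩ | ⟨h2, -⟩ | ⟨-, h3⟩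
    · exact Or.inl (Or.inl ⟨1, by simpa using h2⟩)
    · exact Or.inl (Or.inr ⟨0, by simpa using h2⟩)
    · exact Or.inr (Or.inr h3)
  have s1 := W_mono ((l1.union m1).union k1) hsub
  have s2 := W_union (l1.union m1) k1
  have s3 := W_union l1 m1
  have e : logHeight ![p.1, p.2] = hh p := rfl
  rw [e] at l2 m2
  push_cast at k2
  linarith

lemma log_Nv_ge (v : FinitePlace K) : Real.log 2 ≤ Real.log (Nv v) := by
  apply Real.log_le_log (by norm_num)
  have h := HeightOneSpectrum.one_lt_absNorm v.maximalIdeal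
  unfold Nv
  exact_mod_cast h

lemma ncard_le {A : Set (FinitePlace K)} (hA : A.Finite) : (A.ncard : ℝ) * Real.log 2 ≤ W A := by
  rw [W_eq hA, Set.ncard_eq_toFinset_card A hA, ← nsmul_eq_mul]
  exact Finset.card_nsmul_le_sum _ _ _ fun v _ => log_Nv_ge v

/-- the effect of a map on `lh` -/
lemma lh_le {S : Set (FinitePlace K)} (hS : S.Finite) : ∃ C : ℝ, 0 ≤ C ∧ ∀ (p q : K × K) (X : ℝ),
    Valid p → Valid q → 0 ≤ X → I p ⊆ I q ∪ S → W (I q) ≤ W (I p) + X →
      lh q ≤ lh p + X + C * (1 + Real.log (1 + W (I p))) := by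
  set D := W S with hD
  have hD0 : 0 ≤ D := W_nonneg S
  set r : ℝ := (S.ncard : ℝ) with hr
  have hr0 : 0 ≤ r := Nat.cast_nonneg _
  have hl2 := Real.log_two_gt_d9
  refine ⟨3 * D + r + (4 * D + 4) * (2 * D + 1) + 1, by positivity, ?_⟩
  intro p q X hp hq hX hsub hW
  set w := W (I p) with hw
  set w' := W (I q) with hw'
  have hw0 : 0 ≤ w := W_nonneg _
  have hw0' : 0 ≤ w' := W_nonneg _
  have hIp := I_finite hp
  have hIq := I_finite hq
  have hn := ncard_le hIp
  have hn' := ncard_le hIq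
  set n : ℝ := ((I p).ncard : ℝ) with hndef
  set n' : ℝ := ((I q).ncard : ℝ) with hndef'
  have hn0 : 0 ≤ n := Nat.cast_nonneg _
  have hn0' : 0 ≤ n' := Nat.cast_nonneg _
  have hnn : n ≤ n' + r := by
    have h1 := Set.ncard_le_ncard hsub (hIq.union hS)
    have h2 := Set.ncard_union_le (I q) S
    have h3 : (I p).ncard ≤ (I q).ncard + S.ncard := h1.trans h2
    have h4 : ((I p).ncard : ℝ) ≤ ((I q).ncard + S.ncard : ℕ) := by exact_mod_cast h3
    push_cast at h4
    exact h4
  have hww : w ≤ w' + D := by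
    have h1 := W_mono (hIq.union hS) hsub
    have h2 := W_union hIq hS
    linarith
  have hl1w : 0 ≤ Real.log (1 + w) := Real.log_nonneg (by linarith)
  have hbig : 0 ≤ (3 * D + (4 * D + 4) * (2 * D + 1) + 1) * Real.log (1 + w) := by positivity
  have hbig2 : 0 ≤ (3 * D + r + (4 * D + 4) * (2 * D + 1) + 1) * Real.log (1 + w) := by positivity
  unfold lh
  rw [← hw, ← hw', ← hndef, ← hndef']
  rcases le_or_gt (2 * D + 2) w with hcase | hcase
  · -- the radical is large
    have hw1 : 1 ≤ w - D := by linarith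
    have hw2 : w / 2 ≤ w - D := by linarith
    have h1 : Real.log (w - D) ≤ Real.log w' := Real.log_le_log (by linarith) (by linarith)
    have h2 : 0 ≤ Real.log (w - D) := Real.log_nonneg hw1
    have h3 : Real.log w - 2 * D / w ≤ Real.log (w - D) := by
      have h4 : Real.log w - Real.log (w - D) ≤ w / (w - D) - 1 := by
        rw [← Real.log_div (by linarith) (by linarith)]
        exact Real.log_le_sub_one_of_pos (div_pos (by linarith) (by linarith))
      have h5 : w / (w - D) - 1 = D / (w - D) := by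
        have : w - D ≠ 0 := by linarith
        field_simp
        ring
      have h6 : D / (w - D) ≤ 2 * D / w := by
        rw [div_le_div_iff₀ (by linarith) (by linarith)]
        nlinarith
      linarith
    have h4 : n' * Real.log (w - D) ≤ n' * Real.log w' := mul_le_mul_of_nonneg_left h1 hn0'
    have h5 : (n - r) * Real.log (w - D) ≤ n' * Real.log (w - D) :=
      mul_le_mul_of_nonneg_right (by linarith) h2
    have h6 : n * (Real.log w - 2 * D / w) ≤ n * Real.log (w - D) :=
      mul_le_mul_of_nonneg_left h3 hn0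
    have h7 : n * (2 * D / w) ≤ 3 * D := by
      have h8 : n * (2 / 3) ≤ w := by
        have : n * (2 / 3) ≤ n * Real.log 2 := mul_le_mul_of_nonneg_left (by linarith) hn0
        linarith
      have h9 : n * (2 * D / w) = 2 * D * n / w := by ring
      rw [h9, div_le_iff₀ (by linarith)]
      nlinarith
    have h8 : r * Real.log (w - D) ≤ r * Real.log (1 + w) :=
      mul_le_mul_of_nonneg_left (Real.log_le_log (by linarith) (by linarith)) hr0
    have e1 : (3 * D + r + (4 * D + 4) * (2 * D + 1) + 1) * (1 + Real.log (1 + w)) =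
        (3 * D + r + (4 * D + 4) * (2 * D + 1) + 1) + r * Real.log (1 + w) +
        (3 * D + (4 * D + 4) * (2 * D + 1) + 1) * Real.log (1 + w) := by ring
    have e2 : 0 ≤ (4 * D + 4) * (2 * D + 1) := by positivity
    rw [e1]
    linarith
  · -- the radical is bounded
    have h1 : -1 ≤ n' * Real.log w' := by
      rcases le_or_gt 1 w' with h | h
      · have := mul_nonneg hn0' (Real.log_nonneg h)
        linarith
      · rcases Nat.eq_zero_or_pos (I q).ncard with h0 | h0
        · have : n' = 0 := by rw [hndef', h0]; norm_num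
          rw [this]
          norm_num
        · have h3 : (1 : ℝ) ≤ n' := by
            rw [hndef']
            exact_mod_cast h0
          have h4 : (I q).ncard ≤ 1 := by
            by_contra hcon
            have h5 : (2 : ℝ) ≤ n' := by
              rw [hndef']
              exact_mod_cast (by omega : 2 ≤ (I q).ncard)
            nlinarith
          have h5 : n' = 1 := by
            rw [hndef']
            have : (I q).ncard = 1 := by omega
            rw [this]
            norm_num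
          rw [h5, one_mul] at hn' ⊢
          have h6 : Real.exp (-1) ≤ w' := by
            refine le_trans ?_ hn'
            rw [Real.exp_neg, inv_le_comm₀ (Real.exp_pos _) (by linarith)]
            have h7 := Real.exp_one_gt_d9
            have h8 : (Real.log 2)⁻¹ ≤ 2 := by
              rw [inv_le_comm₀ (by linarith) (by norm_num)]
              linarith
            linarith
          have h7 := Real.log_le_log (Real.exp_pos _) h6
          rwa [Real.log_exp] at h7
    have h2 : n * Real.log w ≤ (4 * D + 4) * (2 * D + 1) := by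
      rcases le_or_gt (Real.log w) 0 with h | h
      · have h3 : n * Real.log w ≤ 0 := mul_nonpos_of_nonneg_of_nonpos hn0 h
        have : 0 ≤ (4 * D + 4) * (2 * D + 1) := by positivity
        linarith
      · have hwpos : 0 < w := by
          by_contra hcon
          have : w = 0 := le_antisymm (not_lt.1 hcon) hw0
          rw [this, Real.log_zero] at h
          exact lt_irrefl _ h
        have h3 : Real.log w ≤ 2 * D + 1 := by
          have := Real.log_le_sub_one_of_pos hwpos
          linarith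
        have h4 : n ≤ 4 * D + 4 := by
          have : n * (1 / 2) ≤ n * Real.log 2 := mul_le_mul_of_nonneg_left (by linarith) hn0
          linarith
        calc n * Real.log w ≤ n * (2 * D + 1) := mul_le_mul_of_nonneg_left h3 hn0
          _ ≤ (4 * D + 4) * (2 * D + 1) := mul_le_mul_of_nonneg_right h4 (by linarith)
    have e1 : (3 * D + r + (4 * D + 4) * (2 * D + 1) + 1) * (1 + Real.log (1 + w)) =
        (3 * D + r + (4 * D + 4) * (2 * D + 1) + 1) +
        (3 * D + r + (4 * D + 4) * (2 * D + 1) + 1) * Real.log (1 + w) := by ring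
    rw [e1]
    linarith

/-- a map of degree `N` respecting `H` -/
def GoodH (N : ℕ) (f : K × K → K × K) : Prop := ∃ C : ℝ, 0 ≤ C ∧ ∀ p, Valid p →
  hh p ≤ C ∨ (Valid (f p) ∧ N * hh p - C ≤ hh (f p) ∧ hh (f p) ≤ N * hh p + C ∧
    lh (f p) ≤ lh p + (N - 1) * hh p + C * Real.log (2 + hh p))

theorem goodH {N : ℕ} (hN : 1 ≤ N) {f : K × K → K × K} (hf : Good N f) (kf : Keep f) :
    GoodH N f := by
  obtain ⟨C, hC, hf⟩ := hf
  obtain ⟨D, hD, S, hS, kf⟩ := kf
  obtain ⟨E, hE, hlh⟩ := lh_le hS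
  obtain ⟨C0, hC0, hW⟩ := W_I_le (K := K)
  have hN' : (1 : ℝ) ≤ N := by exact_mod_cast hN
  have hl2 := Real.log_two_gt_d9
  have hl5 : 0 ≤ Real.log (5 + C0) := Real.log_nonneg (by linarith)
  refine ⟨C + D + (2 * C + 2 * E + 2 * E * Real.log (5 + C0) + E), by positivity,
    fun p hp => ?_⟩
  set Z : ℝ := 2 * C + 2 * E + 2 * E * Real.log (5 + C0) + E with hZ
  have hZ0 : 0 ≤ Z := by positivity
  rcases kf p hp with h | ⟨h1, h2⟩
  · left
    linarith
  rcases hf p hp with h | ⟨-, h3, h4, h5⟩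
  · left
    linarith
  right
  refine ⟨h1, by linarith, by linarith, ?_⟩
  have hh0 := hh_nonneg p
  have hX : 0 ≤ ((N : ℝ) - 1) * hh p + C := by
    have : 0 ≤ ((N : ℝ) - 1) * hh p := mul_nonneg (by linarith) hh0
    linarith
  have h6 := hlh p (f p) (((N : ℝ) - 1) * hh p + C) hp h1 hX h2 (by linarith)
  have hl : Real.log 2 ≤ Real.log (2 + hh p) := Real.log_le_log (by norm_num) (by linarith)
  set l := Real.log (2 + hh p) with hldef
  have hl' : 1 / 2 ≤ l := by linarith
  have h7 : Real.log (1 + W (I p)) ≤ Real.log (5 + C0) + l := by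
    rw [hldef, ← Real.log_mul (by linarith) (by linarith)]
    apply Real.log_le_log
    · have := W_nonneg (I p)
      linarith
    · have := hW p hp
      nlinarith
  have h8 : E * (1 + Real.log (1 + W (I p))) ≤ E * (1 + (Real.log (5 + C0) + l)) := by gcongr
  have h9 : C + E * (1 + (Real.log (5 + C0) + l)) ≤ (C + D + Z) * l := by
    have e1 : (C + D + Z) * l = (C + D) * l + 2 * C * l + 2 * E * l +
        2 * E * Real.log (5 + C0) * l + E * l := by
      rw [hZ]
      ring
    have m1 : 0 ≤ (C + D) * l := mul_nonneg (by linarith) (by linarith)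
    have m2 : C ≤ 2 * C * l := by nlinarith
    have m3 : E ≤ 2 * E * l := by nlinarith
    have m4 : E * Real.log (5 + C0) ≤ 2 * E * Real.log (5 + C0) * l := by
      have : 0 ≤ E * Real.log (5 + C0) := by positivity
      nlinarith
    rw [e1]
    linarith
  linarith

end Pool.Agent.V8H8.HS
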