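import Pool.Agent.V8H8.HS.LH

/-!
# Many images of one violation
-/

set_option autoImplicit false

namespace Pool.Agent.V8H8.HS

open NumberField Height IsDedekindDomain Pool.Agent.V8H8.AB

variable {K : Type} [Field K] [NumberField K]

/-- the logarithm is small -/
lemma log_small {c E : ℝ} (hc : 0 < c) (hE : 0 ≤ E) : ∃ T : ℝ, 0 ≤ T ∧ ∀ h : ℝ, T ≤ h →
    E * Real.log (2 + h) ≤ c * h := by
  refine ⟨max 2 (8 * E ^ 2 / c ^ 2), by positivity, fun h hh => ?_⟩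
  have h1 : 2 ≤ h := (le_max_left _ _).trans hh
  have h2 : 8 * E ^ 2 / c ^ 2 ≤ h := (le_max_right _ _).trans hh
  rw [div_le_iff₀ (by positivity)] at h2
  have h3 : Real.log (2 + h) ≤ 2 * √(2 * h) := by
    have h4 : Real.log (√(2 + h)) ≤ √(2 + h) - 1 :=
      Real.log_le_sub_one_of_pos (Real.sqrt_pos.mpr (by linarith))
    rw [Real.log_sqrt (by linarith)] at h4
    have h5 : √(2 + h) ≤ √(2 * h) := Real.sqrt_le_sqrt (by linarith)
    linarith
  have h4 : E * (2 * √(2 * h)) ≤ c * h := by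
    apply le_of_sq_le_sq _ (by positivity)
    have h5 : √(2 * h) ^ 2 = 2 * h := Real.sq_sqrt (by linarith)
    calc (E * (2 * √(2 * h))) ^ 2 = 4 * E ^ 2 * √(2 * h) ^ 2 := by ring
      _ = 8 * E ^ 2 * h := by rw [h5]; ring
      _ ≤ h * c ^ 2 * h := mul_le_mul_of_nonneg_right h2 (by linarith)
      _ = (c * h) ^ 2 := by ring
  calc E * Real.log (2 + h) ≤ E * (2 * √(2 * h)) := mul_le_mul_of_nonneg_left h3 hE
    _ ≤ c * h := h4

/-- the images of a point of large height with small `H` -/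
theorem manyH (q : ℕ) (hq : 1 ≤ q) (η : ℝ) (hη : 0 < η)
    (h : ∀ L : ℝ, ∃ p : K × K, Valid p ∧ L ≤ hh p ∧ lh p ≤ (1 - η) * hh p)
    (k : ℕ) (hk : 1 ≤ k) (ε : ℝ) (hε : 0 < ε) (hεk : ε * (2 * (q + 1) * k) ≤ η / 4) (B L : ℝ) :
    ∃ s : ℝ, L ≤ s ∧ ∃ F : Finset (K × K), F.card = k ^ 2 ∧
      (∀ u ∈ F, Valid u ∧ s ≤ hh u ∧ hh u ≤ (1 + 1 / q) * s ∧ (1 + ε) * lh u + B ≤ hh u) ∧
      ∀ u ∈ F, ∀ u' ∈ F, u.1 / u.2 = u'.1 / u'.2 → u = u' := by
  classical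
  have hq1 : (1 : ℝ) ≤ q := by exact_mod_cast hq
  have hk1 : (1 : ℝ) ≤ k := by exact_mod_cast hk
  set J : Finset (ℕ × ℕ) := Finset.Icc (q * k + 1) (q * k + k) ×ˢ Finset.Icc (q * k + 1) (q * k + k)
    with hJ
  have hJcard : J.card = k ^ 2 := by
    rw [hJ, Finset.card_product, Nat.card_Icc]
    have : q * k + k + 1 - (q * k + 1) = k := by omega
    rw [this]
    ring
  have hJmem : ∀ i ∈ J, 1 ≤ i.1 ∧ 1 ≤ i.2 ∧ 2 * q * k + 2 ≤ i.1 + i.2 ∧ i.1 + i.2 ≤ 2 * (q + 1) * k := by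
    intro i hi
    rw [hJ, Finset.mem_product, Finset.mem_Icc, Finset.mem_Icc] at hi
    obtain ⟨⟨h1, h2⟩, h3, h4⟩ := hi
    have e : 2 * q * k = q * k + q * k := by ring
    have e' : 2 * (q + 1) * k = q * k + q * k + k + k := by ring
    omega
  -- constants of the maps
  have hgood : ∀ i : ℕ × ℕ, ∃ C : ℝ, 0 ≤ C ∧ (1 ≤ i.1 → 1 ≤ i.2 → ∀ p : K × K, Valid p →
    hh p ≤ C ∨ (Valid (bm i.1 i.2 p) ∧ ((i.1 + i.2 : ℕ) : ℝ) * hh p - C ≤ hh (bm i.1 i.2 p) ∧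
      hh (bm i.1 i.2 p) ≤ ((i.1 + i.2 : ℕ) : ℝ) * hh p + C ∧
    lh (bm i.1 i.2 p) ≤ lh p + (((i.1 + i.2 : ℕ) : ℝ) - 1) * hh p + C * Real.log (2 + hh p))) := by
    intro i
    by_cases hi : 1 ≤ i.1 ∧ 1 ≤ i.2
    · obtain ⟨C, hC, h⟩ := goodH (K := K) (N := i.1 + i.2) (by omega)
        (good_bm i.1 i.2 hi.1 hi.2) (keep_bm i.1 i.2 hi.1 hi.2)
      exact ⟨C, hC, fun _ _ => h⟩
    · exact ⟨0, le_rfl, fun h1 h2 => absurd ⟨h1, h2⟩ hi⟩
  choose Cn hCn0 hCn using hgood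
  -- the ratios at which two maps agree
  set Bs : Set K := ⋃ i ∈ J, ⋃ j ∈ J, {t : K | i ≠ j ∧ be K j.1 j.2 * al K i.1 i.2 *
    (t ^ i.1 * (1 - t) ^ i.2) = be K i.1 i.2 * al K j.1 j.2 * (t ^ j.1 * (1 - t) ^ j.2)} with hBs
  have hBfin : Bs.Finite := by
    refine Set.Finite.biUnion (Finset.finite_toSet J) fun i hi => ?_
    refine Set.Finite.biUnion (Finset.finite_toSet J) fun j hj => ?_
    obtain ⟨i1, i2, -, -⟩ := hJmem i hi
    obtain ⟨j1, j2, -, -⟩ := hJmem j hj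
    by_cases hij : i = j
    · simp [hij]
    · exact (agree_finite i.1 i.2 j.1 j.2 i1 i2 j1 j2 (fun h => hij h)).subset fun t ht => ht.2
  obtain ⟨C2, hC20, hC2⟩ := hh_bdd Bs hBfin
  set E : ℝ := ∑ i ∈ J, Cn i with hE
  have hE0 : 0 ≤ E := Finset.sum_nonneg fun i _ => hCn0 i
  have hCE : ∀ i ∈ J, Cn i ≤ E := fun i hi => Finset.single_le_sum (f := Cn) (fun j _ => hCn0 j) hi
  obtain ⟨T, hT0, hT⟩ := log_small (c := η / 4) (E := E) (by positivity) hE0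
  obtain ⟨p, hp, hLp, hWp⟩ := h (C2 + 1 + E + (|L| + E) + E + T +
    2 * ((2 + ε) * E + |B|) / η)
  have hB0 : 0 ≤ 2 * ((2 + ε) * E + |B|) / η := by positivity
  have hLa := le_abs_self L
  have hLa0 := abs_nonneg L
  have hh0 := hh_nonneg p
  have a1 : C2 < hh p := by linarith
  have a2 : E < hh p := by linarith
  have a3 : |L| + E ≤ hh p := by linarith
  have a5 : 2 * ((2 + ε) * E + |B|) / η ≤ hh p := by linarith
  have a6 : E * Real.log (2 + hh p) ≤ η / 4 * hh p := hT _ (by linarith)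
  have hl0 : 0 ≤ Real.log (2 + hh p) := Real.log_nonneg (by linarith)
  rw [div_le_iff₀ hη] at a5
  set s : ℝ := (2 * q * k + 2) * hh p - E with hs
  have hqk : (1 : ℝ) ≤ q * k := by
    calc (1 : ℝ) = 1 * 1 := (mul_one _).symm
      _ ≤ q * k := mul_le_mul hq1 hk1 zero_le_one (by linarith)
  have hsL : L ≤ s := by
    have : 1 * hh p ≤ (2 * q * k + 2) * hh p := mul_le_mul_of_nonneg_right (by nlinarith) hh0
    rw [hs]
    linarith
  -- properties of the images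
  have himg : ∀ i ∈ J, Valid (bm i.1 i.2 p) ∧ s ≤ hh (bm i.1 i.2 p) ∧
      hh (bm i.1 i.2 p) ≤ (1 + 1 / q) * s ∧
        (1 + ε) * lh (bm i.1 i.2 p) + B ≤ hh (bm i.1 i.2 p) := by
    intro i hi
    obtain ⟨i1, i2, i3, i4⟩ := hJmem i hi
    have hci := hCE i hi
    rcases hCn i i1 i2 p hp with hc | ⟨k1, k2, k3, k4⟩
    · linarith
    have i3' : ((2 * q * k + 2 : ℕ) : ℝ) ≤ ((i.1 + i.2 : ℕ) : ℝ) := by exact_mod_cast i3
    have i4' : ((i.1 + i.2 : ℕ) : ℝ) ≤ ((2 * (q + 1) * k : ℕ) : ℝ) := by exact_mod_cast i4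
    push_cast at i3' i4' k2 k3 k4
    have m1 := mul_le_mul_of_nonneg_right i3' hh0
    have m2 := mul_le_mul_of_nonneg_right i4' hh0
    refine ⟨k1, ?_, ?_, ?_⟩
    · rw [hs]
      linarith
    · have e1 : (1 + 1 / (q : ℝ)) * s = 2 * (q + 1) * k * hh p + (2 + 2 / q) * hh p -
          (1 + 1 / q) * E := by
        rw [hs]
        field_simp
      rw [e1]
      have hq0 : (0 : ℝ) ≤ 1 / q := by positivity
      have e2 : (2 + 2 / (q : ℝ)) * hh p = 2 * hh p + 2 * (1 / q * hh p) := by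
        field_simp
      have e3 : (1 + 1 / (q : ℝ)) * E = E + 1 / q * E := by ring
      have m3 := mul_le_mul_of_nonneg_left a2.le hq0
      have m4 : 0 ≤ 1 / (q : ℝ) * hh p := by positivity
      rw [e2, e3]
      linarith
    · have w0 : Cn i * Real.log (2 + hh p) ≤ η / 4 * hh p :=
        (mul_le_mul_of_nonneg_right hci hl0).trans a6
      have w1 : lh (bm i.1 i.2 p) ≤ ((i.1 + i.2 : ℝ) - 3 * η / 4) * hh p := by
        have : ((i.1 : ℝ) + i.2 - 3 * η / 4) * hh p = (1 - η) * hh p +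
          ((i.1 : ℝ) + i.2 - 1) * hh p + η / 4 * hh p := by ring
        rw [this]
        linarith
      have w2 : (1 + ε) * lh (bm i.1 i.2 p) ≤ (1 + ε) * (((i.1 + i.2 : ℝ) - 3 * η / 4) * hh p) :=
        mul_le_mul_of_nonneg_left w1 (by linarith)
      have w3 : ε * ((i.1 : ℝ) + i.2) ≤ η / 4 :=
        (mul_le_mul_of_nonneg_left i4' hε.le).trans hεk
      have w4 : ((i.1 : ℝ) + i.2) * hh p - (1 + ε) * (((i.1 + i.2 : ℝ) - 3 * η / 4) * hh p) =
          (3 * η / 4 + ε * (3 * η / 4) - ε * ((i.1 : ℝ) + i.2)) * hh p := by ring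
      have w5 : η / 2 * hh p ≤ (3 * η / 4 + ε * (3 * η / 4) - ε * ((i.1 : ℝ) + i.2)) * hh p := by
        apply mul_le_mul_of_nonneg_right _ hh0
        have : 0 ≤ ε * (3 * η / 4) := by positivity
        linarith
      have hBa := le_abs_self B
      have hεE : 0 ≤ ε * E := by positivity
      linarith
  have hinj : ∀ i ∈ J, ∀ j ∈ J, (bm i.1 i.2 p).1 / (bm i.1 i.2 p).2 =
      (bm j.1 j.2 p).1 / (bm j.1 j.2 p).2 → i = j := by
    intro i hi j hj hij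
    by_contra hne
    obtain ⟨i1, i2, -, -⟩ := hJmem i hi
    obtain ⟨j1, j2, -, -⟩ := hJmem j hj
    have hmem : p.1 / p.2 ∈ Bs := by
      rw [hBs]
      refine Set.mem_biUnion (x := i) hi (Set.mem_biUnion (x := j) hj ⟨hne, ?_⟩)
      rw [bm_ratio _ _ p hp.2.1, bm_ratio _ _ p hp.2.1] at hij
      have b1 := be_ne (K := K) i1 i2
      have b2 := be_ne (K := K) j1 j2
      rw [div_eq_div_iff b1 b2] at hij
      linear_combination hij
    have := hC2 p hmem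
    linarith
  refine ⟨s, hsL, J.image fun i => bm i.1 i.2 p, ?_, ?_, ?_⟩
  · rw [Finset.card_image_of_injOn, hJcard]
    intro i hi j hj hij
    exact hinj i hi j hj (by simp only at hij; rw [hij])
  · intro u hu
    obtain ⟨i, hi, rfl⟩ := Finset.mem_image.1 hu
    exact himg i hi
  · intro u hu u' hu' huu
    obtain ⟨i, hi, rfl⟩ := Finset.mem_image.1 hu
    obtain ⟨j, hj, rfl⟩ := Finset.mem_image.1 hu'
    rw [hinj i hi j hj huu]

/-- many violations in the region `U`, in short windows of heights -/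
def SWH (U : K × K → Prop) : Prop := ∀ ρ : ℝ, 0 < ρ → ∃ c : ℝ, 0 < c ∧ ∀ ε : ℝ, 0 < ε → ε < c →
  ∀ B L : ℝ, ∃ s : ℝ, L ≤ s ∧ ∃ F : Finset (K × K), c / ε ^ 2 ≤ (F.card : ℝ) ∧
    (∀ u ∈ F, Valid u ∧ U u ∧ s ≤ hh u ∧ hh u ≤ (1 + ρ) * s ∧ (1 + ε) * lh u + B ≤ hh u) ∧
    ∀ u ∈ F, ∀ u' ∈ F, u.1 / u.2 = u'.1 / u'.2 → u = u'

/-- many violations from violations of unbounded size -/
theorem swh_start {η : ℝ} (hη0 : 0 < η)
    (hbad : ∀ L : ℝ, ∃ p : K × K, Valid p ∧ L ≤ hh p ∧ lh p ≤ (1 - η) * hh p) :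
    SWH (fun _ : K × K => True) := by
  intro ρ hρ
  obtain ⟨q', hq'⟩ := exists_nat_one_div_lt hρ
  set q : ℕ := q' + 1 with hq
  have hq1 : 1 ≤ q := by omega
  have hqρ : 1 / (q : ℝ) ≤ ρ := by
    rw [hq]
    push_cast
    exact hq'.le
  have hqpos : (0 : ℝ) < q := by exact_mod_cast hq1
  set κ : ℝ := η / (16 * (q + 1)) with hκ
  have hκ0 : 0 < κ := by positivity
  refine ⟨min κ (κ ^ 2), by positivity, ?_⟩
  intro ε hε hεc B L
  have hε1 : ε < κ := hεc.trans_le (min_le_left _ _)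
  set k : ℕ := ⌊2 * κ / ε⌋₊ with hk
  have hk1 : 1 ≤ k := by
    rw [hk, Nat.one_le_floor_iff, one_le_div hε]
    linarith
  have hkle : (k : ℝ) ≤ 2 * κ / ε := Nat.floor_le (by positivity)
  have hkge : κ / ε ≤ k := by
    have h1 : 2 * κ / ε < k + 1 := Nat.lt_floor_add_one _
    have h2 : 1 < κ / ε := by
      rw [one_lt_div hε]
      exact hε1
    have h3 : 2 * κ / ε = κ / ε + κ / ε := by ring
    linarith
  have hεk : ε * (2 * (q + 1) * k) ≤ η / 4 := by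
    calc ε * (2 * (q + 1) * k) ≤ ε * (2 * (q + 1) * (2 * κ / ε)) := by gcongr
      _ = η / 4 := by
        rw [hκ]
        field_simp
        norm_num
  obtain ⟨s, hs, F, hFc, hF, hFinj⟩ := manyH q hq1 η hη0 hbad k hk1 ε hε hεk B (max L 0)
  have hs0 : 0 ≤ s := (le_max_right _ _).trans hs
  refine ⟨s, (le_max_left _ _).trans hs, F, ?_, ?_, hFinj⟩
  · rw [hFc]
    push_cast
    calc min κ (κ ^ 2) / ε ^ 2 ≤ κ ^ 2 / ε ^ 2 := by
          gcongr
          exact min_le_right _ _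
      _ = (κ / ε) ^ 2 := (div_pow κ ε 2).symm
      _ ≤ (k : ℝ) ^ 2 := by gcongr
  · intro u hu
    obtain ⟨f1, f2, f3, f4⟩ := hF u hu
    refine ⟨f1, trivial, f2, ?_, f4⟩
    have : (1 + 1 / (q : ℝ)) * s ≤ (1 + ρ) * s := mul_le_mul_of_nonneg_right (by linarith) hs0
    linarith

/-- the transport of one violation -/
theorem violH {N ε ε' h w w' v B B' E c l : ℝ} (hN : 1 ≤ N) (hε : 0 < ε) (hε' : ε' < 1)
    (hε1 : ε ≤ 1) (hεN : ε * N ≤ ε' / 8) (hh0 : 0 ≤ h) (hw : (1 + ε') * w + B' ≤ h)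
    (hc0 : 0 ≤ c) (hc : c ≤ E) (hl : E * l ≤ ε / 4 * h) (hl0 : 0 ≤ l)
    (hB' : B' = 2 * (E + |B|)) (hv : v ≤ w + (N - 1) * h + c * l)
    (hw' : N * h - c ≤ w') : (1 + ε) * v + B ≤ w' := by
  have hE : 0 ≤ E := hc0.trans hc
  have hεε : ε ≤ ε' / 8 := by
    calc ε = ε * 1 := (mul_one _).symm
      _ ≤ ε * N := mul_le_mul_of_nonneg_left hN hε.le
      _ ≤ ε' / 8 := hεN
  have hε'0 : 0 < ε' := by linarith
  have hB0 := abs_nonneg B
  have hcl : c * l ≤ ε / 4 * h := (mul_le_mul_of_nonneg_right hc hl0).trans hl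
  -- `(1 + ε) v ≤ (1 + ε) w + (N - 1) h + ε (N - 1) h + (1 + ε) (ε / 4) h`
  have h1 : (1 + ε) * v ≤ (1 + ε) * (w + (N - 1) * h + ε / 4 * h) :=
    mul_le_mul_of_nonneg_left (by linarith) (by linarith)
  have h2 : (1 + ε) * w + ε' / 8 * h + (E + |B|) ≤ h := by
    have h3 : w * (1 + ε') ≤ h - B' := by linarith
    have h4 : ((1 + ε) * w + ε' / 8 * h + (E + |B|)) * (1 + ε') ≤ h * (1 + ε') := by
      have h5 : (1 + ε) * (w * (1 + ε')) ≤ (1 + ε) * (h - B') :=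
        mul_le_mul_of_nonneg_left h3 (by linarith)
      have h6 : ε' / 8 * h * (1 + ε') ≤ ε' / 8 * h * 2 :=
        mul_le_mul_of_nonneg_left (by linarith) (by positivity)
      have h7 : (E + |B|) * (1 + ε') ≤ (E + |B|) * 2 :=
        mul_le_mul_of_nonneg_left (by linarith) (by positivity)
      have h8 : ε * h ≤ ε' / 8 * h := mul_le_mul_of_nonneg_right hεε hh0
      have h9 : 0 ≤ ε * B' := by
        rw [hB']
        positivity
      have h10 : 0 ≤ ε' * h := by positivity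
      have e1 : ((1 + ε) * w + ε' / 8 * h + (E + |B|)) * (1 + ε') =
          (1 + ε) * (w * (1 + ε')) + ε' / 8 * h * (1 + ε') + (E + |B|) * (1 + ε') := by ring
      rw [e1]
      have e2 : (1 + ε) * (h - B') = h + ε * h - B' - ε * B' := by ring
      rw [e2] at h5
      linarith
    exact le_of_mul_le_mul_right h4 (by linarith)
  have h3 : ε * (N - 1) * h + (1 + ε) * (ε / 4 * h) ≤ ε' / 8 * h := by
    have e1 : ε * (N - 1) * h + (1 + ε) * (ε / 4 * h) = (ε * N - ε + (1 + ε) * (ε / 4)) * h := by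
      ring
    rw [e1]
    apply mul_le_mul_of_nonneg_right _ hh0
    nlinarith
  have e4 : (1 + ε) * (w + (N - 1) * h + ε / 4 * h) =
      (1 + ε) * w + (N - 1) * h + (ε * (N - 1) * h + (1 + ε) * (ε / 4 * h)) := by ring
  rw [e4] at h1
  have hBa := le_abs_self B
  linarith

end Pool.Agent.V8H8.HS
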