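import Pool.Agent.V8H8.HS.ManyH

/-!
# The images of many violations
-/

set_option autoImplicit false

namespace Pool.Agent.V8H8.HS

open NumberField Height IsDedekindDomain Pool.Agent.V8H8.AB

variable {K : Type} [Field K] [NumberField K]

set_option maxHeartbeats 1600000 in
theorem swh_map {ι : Type} (J : Finset ι) (g : ι → K × K → K × K) (N d : ι → ℕ)
    (hN : ∀ j ∈ J, 1 ≤ N j) (hg : ∀ j ∈ J, GoodH (N j) (g j)) (hd : ∀ j ∈ J, Fib (d j) (g j))
    (V U : K × K → Prop) (hV : ∀ p, Valid p → V p → ∃ j ∈ J, U (g j p)) (h : SWH V) : SWH U := by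
  classical
  intro ρ hρ
  obtain ⟨c', hc', h⟩ := h (ρ / 2) (by positivity)
  set D : ℕ := 1 + ∑ j ∈ J, (N j + d j) with hD
  have hND : ∀ j ∈ J, N j ≤ D := fun j hj => by
    have h0 : N j + d j ≤ ∑ j ∈ J, (N j + d j) :=
      Finset.single_le_sum (f := fun j => N j + d j) (fun j _ => Nat.zero_le _) hj
    omega
  have hdD : ∀ j ∈ J, d j ≤ D := fun j hj => by
    have h0 : N j + d j ≤ ∑ j ∈ J, (N j + d j) :=
      Finset.single_le_sum (f := fun j => N j + d j) (fun j _ => Nat.zero_le _) hj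
    omega
  have hD1 : (1 : ℝ) ≤ D := by
    have : 1 ≤ D := by omega
    exact_mod_cast this
  set M : ℝ := 64 * D ^ 3 * (J.card + 1) with hM
  have hM0 : 0 < M := by positivity
  have hgood : ∀ j : ι, ∃ C : ℝ, 0 ≤ C ∧ (j ∈ J → ∀ p : K × K, Valid p →
    hh p ≤ C ∨ (Valid (g j p) ∧ (N j : ℝ) * hh p - C ≤ hh (g j p) ∧
      hh (g j p) ≤ (N j : ℝ) * hh p + C ∧
    lh (g j p) ≤ lh p + ((N j : ℝ) - 1) * hh p + C * Real.log (2 + hh p))) := by
    intro j
    by_cases hj : j ∈ J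
    · obtain ⟨C, hC, h⟩ := hg j hj
      exact ⟨C, hC, fun _ => h⟩
    · exact ⟨0, le_rfl, fun h => absurd h hj⟩
  choose Cn hCn0 hCn using hgood
  set E : ℝ := ∑ j ∈ J, Cn j with hE
  have hE0 : 0 ≤ E := Finset.sum_nonneg fun j _ => hCn0 j
  have hCE : ∀ j ∈ J, Cn j ≤ E := fun j hj => Finset.single_le_sum (f := Cn) (fun j _ => hCn0 j) hj
  refine ⟨min (c' / M) (min (c' / (8 * D)) (1 / (8 * D))), by positivity, ?_⟩
  intro ε hε hεc B L
  have e1 : ε < c' / (8 * D) := hεc.trans_le ((min_le_right _ _).trans (min_le_left _ _))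
  have e2 : ε < 1 / (8 * D) := hεc.trans_le ((min_le_right _ _).trans (min_le_right _ _))
  rw [lt_div_iff₀ (by positivity)] at e1 e2
  set ε' : ℝ := 8 * D * ε with hε'
  have hε'0 : 0 < ε' := by positivity
  have hε'1 : ε' < 1 := by rw [hε']; linarith
  have hε'c : ε' < c' := by rw [hε']; linarith
  set B' : ℝ := 2 * (E + |B|) with hB'
  have hB'0 : 0 ≤ B' := by positivity
  obtain ⟨T, hT0, hT⟩ := log_small (c := ε / 4) (E := E) (by positivity) hE0
  obtain ⟨s, hs, F, hFc, hF, hFinj⟩ := h ε' hε'0 hε'c B' (|L| + E + 1 + 2 * (2 + ρ) * E / ρ + T)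
  have hs1 : 0 ≤ 2 * (2 + ρ) * E / ρ := by positivity
  have hL0 := abs_nonneg L
  have hLa := le_abs_self L
  have hs0 : 0 < s := by linarith
  -- the choice of the map
  have hFne : F.Nonempty := by
    rw [← Finset.card_pos]
    have : 0 < c' / ε' ^ 2 := by positivity
    have h3 := this.trans_le hFc
    exact_mod_cast h3
  have hch : ∀ u : K × K, ∃ j : ι, u ∈ F → j ∈ J ∧ U (g j u) := by
    intro u
    by_cases hu : u ∈ F
    · obtain ⟨f1, f2, -⟩ := hF u hu
      obtain ⟨j, hj, hju⟩ := hV u f1 f2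
      exact ⟨j, fun _ => ⟨hj, hju⟩⟩
    · by_cases hJ : Nonempty ι
      · exact ⟨hJ.some, fun h => absurd h hu⟩
      · by_contra hcon
        obtain ⟨u0, hu0⟩ := hFne
        obtain ⟨f1, f2, -⟩ := hF u0 hu0
        obtain ⟨j, -, -⟩ := hV u0 f1 f2
        exact hJ ⟨j⟩
  choose jj hjj using hch
  -- pigeonhole
  have hJpos : 0 < J.card := by
    obtain ⟨u0, hu0⟩ := hFne
    exact Finset.card_pos.2 ⟨jj u0, (hjj u0 hu0).1⟩
  obtain ⟨j, hj, hjc⟩ : ∃ j ∈ J, (F.card : ℝ) ≤ J.card * ((F.filter fun u => jj u = j).card : ℝ) := by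
    by_contra hcon
    push Not at hcon
    have h1 := Finset.card_eq_sum_card_fiberwise (f := jj) (s := F) (t := J) fun u hu => (hjj u hu).1
    have h2 : (J.card : ℝ) * (F.card : ℝ) < J.card * F.card := by
      calc (J.card : ℝ) * (F.card : ℝ) = ∑ j ∈ J, (J.card : ℝ) * ((F.filter fun u => jj u = j).card : ℝ) := by
            rw [← Finset.mul_sum, h1]
            push_cast
            rfl
        _ < ∑ _ ∈ J, (F.card : ℝ) := Finset.sum_lt_sum_of_nonempty (Finset.card_pos.1 hJpos) hcon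
        _ = J.card * F.card := by rw [Finset.sum_const, nsmul_eq_mul]
    exact lt_irrefl _ h2
  set Fj := F.filter fun u => jj u = j with hFj
  have hFj' : ∀ u ∈ Fj, u ∈ F ∧ U (g j u) := by
    intro u hu
    obtain ⟨h1, h2⟩ := Finset.mem_filter.1 hu
    refine ⟨h1, ?_⟩
    have := (hjj u h1).2
    rwa [h2] at this
  have hNj := hN j hj
  have hNj' : (1 : ℝ) ≤ N j := by exact_mod_cast hNj
  have hNjD : (N j : ℝ) ≤ D := by exact_mod_cast hND j hj
  -- the properties of the images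
  have himg : ∀ u ∈ Fj, Valid (g j u) ∧ U (g j u) ∧ (N j : ℝ) * s - E ≤ hh (g j u) ∧
      hh (g j u) ≤ (1 + ρ) * ((N j : ℝ) * s - E) ∧ (1 + ε) * lh (g j u) + B ≤ hh (g j u) := by
    intro u hu
    obtain ⟨hu1, hu2⟩ := hFj' u hu
    obtain ⟨f1, -, f3, f4, f5⟩ := hF u hu1
    have hCj := hCE j hj
    have hu0 := hh_nonneg u
    rcases hCn j hj u f1 with hc | ⟨k1, k2, k3, k4⟩
    · exfalso
      linarith
    refine ⟨k1, hu2, ?_, ?_, ?_⟩
    · have := mul_le_mul_of_nonneg_left f3 (by linarith : (0 : ℝ) ≤ N j)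
      linarith
    · have h1 := mul_le_mul_of_nonneg_left f4 (by linarith : (0 : ℝ) ≤ N j)
      have h2 : (2 + ρ) * E ≤ ρ / 2 * (N j * s) := by
        have h3 : 2 * (2 + ρ) * E / ρ ≤ s := by linarith
        rw [div_le_iff₀ hρ] at h3
        have h4 : s ≤ N j * s := le_mul_of_one_le_left hs0.le hNj'
        nlinarith
      have e3 : (1 + ρ) * (N j * s - E) = N j * ((1 + ρ / 2) * s) + ρ / 2 * (N j * s) - (1 + ρ) * E := by
        ring
      rw [e3]
      linarith
    · -- the violation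
      have hεD : ε * N j ≤ ε' / 8 := by
        calc ε * N j ≤ ε * D := mul_le_mul_of_nonneg_left hNjD hε.le
          _ = ε' / 8 := by rw [hε']; ring
      have hεle : ε ≤ 1 := by
        have : ε * 1 ≤ ε * (8 * D) := mul_le_mul_of_nonneg_left (by linarith) hε.le
        linarith
      have hl0 : 0 ≤ Real.log (2 + hh u) := Real.log_nonneg (by linarith)
      exact violH hNj' hε hε'1 hεle hεD hu0 f5 (hCn0 j) hCj (hT _ (by linarith)) hl0 hB' k4 k2
  -- the quotients
  set r : K × K → K := fun u => (g j u).1 / (g j u).2 with hr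
  set R := Fj.image r with hR
  have hcard : (Fj.card : ℝ) ≤ D * (R.card : ℝ) := by
    have h1 : Fj.card ≤ D * R.card := by
      refine Finset.card_le_mul_card_image_of_maps_to (f := r) (fun u hu => Finset.mem_image_of_mem r hu) D ?_
      intro w _
      obtain ⟨T, hT, hT'⟩ := hd j hj w
      refine le_trans ?_ (hT.trans (hdD j hj))
      refine Finset.card_le_card_of_injOn (fun u : K × K => u.1 / u.2) ?_ ?_
      · intro u hu
        obtain ⟨h1, h2⟩ := Finset.mem_filter.1 hu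
        obtain ⟨h3, -⟩ := hFj' u h1
        exact hT' u (hF u h3).1 (himg u h1).1.2.1 h2
      · intro u hu u' hu' huu
        obtain ⟨h1, -⟩ := Finset.mem_filter.1 hu
        obtain ⟨h2, -⟩ := Finset.mem_filter.1 hu'
        exact hFinj u (hFj' u h1).1 u' (hFj' u' h2).1 huu
    exact_mod_cast h1
  have hsec : ∀ w : K, ∃ u : K × K, w ∈ R → u ∈ Fj ∧ r u = w := by
    intro w
    by_cases hw : w ∈ R
    · obtain ⟨u, hu, huw⟩ := Finset.mem_image.1 hw
      exact ⟨u, fun _ => ⟨hu, huw⟩⟩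
    · exact ⟨0, fun h => absurd h hw⟩
  choose sec hsec using hsec
  have hsinj : ∀ w ∈ R, ∀ w' ∈ R, (g j (sec w)).1 / (g j (sec w)).2 =
      (g j (sec w')).1 / (g j (sec w')).2 → w = w' := by
    intro w hw w' hw' hww
    rw [← (hsec w hw).2, ← (hsec w' hw').2]
    exact hww
  refine ⟨N j * s - E, ?_, R.image fun w => g j (sec w), ?_, ?_, ?_⟩
  · have h4 : s ≤ N j * s := le_mul_of_one_le_left hs0.le hNj'
    linarith
  · have hRc : (R.image fun w => g j (sec w)).card = R.card := by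
      apply Finset.card_image_of_injOn
      intro w hw w' hw' hww
      simp only at hww
      exact hsinj w hw w' hw' (by rw [hww])
    rw [hRc]
    have hcM : min (c' / M) (min (c' / (8 * D)) (1 / (8 * D))) / ε ^ 2 ≤ c' / M / ε ^ 2 := by
      gcongr
      exact min_le_left _ _
    refine hcM.trans ?_
    have h1 : c' / ε' ^ 2 ≤ J.card * (D * R.card) := by
      refine hFc.trans (hjc.trans ?_)
      exact mul_le_mul_of_nonneg_left hcard (Nat.cast_nonneg _)
    have hJ0 : (0 : ℝ) < J.card := by exact_mod_cast hJpos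
    have hM' : M * ε ^ 2 = ε' ^ 2 * (D * (J.card + 1)) := by
      rw [hM, hε']
      ring
    have h2 : c' / M / ε ^ 2 = c' / ε' ^ 2 / (D * (J.card + 1)) := by
      rw [div_div, div_div, hM']
    rw [h2, div_le_iff₀ (by positivity)]
    refine h1.trans ?_
    have h3 : (0 : ℝ) ≤ R.card := Nat.cast_nonneg _
    have h4 : (0 : ℝ) ≤ D * R.card := by positivity
    calc (J.card : ℝ) * (D * R.card) ≤ (J.card + 1 : ℝ) * (D * R.card) :=
          mul_le_mul_of_nonneg_right (by linarith) h4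
      _ = R.card * (D * (J.card + 1)) := by ring
  · intro v hv
    obtain ⟨w, hw, rfl⟩ := Finset.mem_image.1 hv
    exact himg _ (hsec w hw).1
  · intro v hv v' hv' hvv
    obtain ⟨w, hw, rfl⟩ := Finset.mem_image.1 hv
    obtain ⟨w', hw', rfl⟩ := Finset.mem_image.1 hv'
    rw [hsinj w hw w' hw' hvv]

/-- many violations with `m`-th powers in small regions -/
theorem swh_region (S : Finset (AbsoluteValue K ℝ)) (hS : ∀ a ∈ S, TB a) {δ : ℝ} (hδ : 0 < δ)
    {m : ℕ} (hm : 1 ≤ m) (h : SWH (fun _ : K × K => True)) :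
    SWH (fun p : K × K => ∃ q, Valid q ∧ p = pw m q ∧ ∀ a ∈ S, a q.1 ≤ δ * a q.2) := by
  obtain ⟨M, hM, hnear⟩ := near S hS hδ
  have s1 : SWH (fun q : K × K => ∀ a ∈ S, a q.1 ≤ δ * a q.2) :=
    swh_map (Finset.Icc 1 M) psi (fun n => 4 * n) (fun n => 4 * n)
    (fun j hj => by
      have := (Finset.mem_Icc.1 hj).1
      omega) (fun j hj => by
        have hj1 := (Finset.mem_Icc.1 hj).1
        exact goodH (by omega) (good_psi j hj1) (keep_psi j hj1))
    (fun j hj => fib_psi j (Finset.mem_Icc.1 hj).1) (fun _ => True) _ (fun p hp _ => by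
      obtain ⟨n, hn1, hn2, hn⟩ := hnear p hp.1 hp.2.1
      exact ⟨n, Finset.mem_Icc.2 ⟨hn1, hn2⟩, hn⟩) h
  refine swh_map {()} (fun _ => pw m) (fun _ => m) (fun _ => m) (fun _ _ => hm)
    (fun _ _ => goodH hm (good_pw m hm) (keep_pw m hm)) (fun _ _ => fib_pw m hm)
    (fun q : K × K => ∀ a ∈ S, a q.1 ≤ δ * a q.2) _ (fun p hp hU => ?_) s1
  exact ⟨(), by simp, p, hp, rfl, hU⟩

end Pool.Agent.V8H8.HS
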