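import Pool.Agent.V8H8.HS.MapH
import Pool.Agent.V8H8.AB.GaussB

/-!
# The dictionary for the rational integers
-/

set_option autoImplicit false

namespace Pool.Agent.V8H8.HS

open NumberField Height IsDedekindDomain Pool.Agent.V8H8.AB

/-- the integers in `𝓞 ℚ` -/
noncomputable def eZ : ℤ ≃+* 𝓞 ℚ := Rat.ringOfIntegersEquiv.symm

lemma eZ_coe (z : ℤ) : algebraMap (𝓞 ℚ) ℚ (eZ z) = (z : ℚ) :=
  Rat.ringOfIntegersEquiv_symm_apply_coe z

lemma fin_int (v : FinitePlace ℚ) (z : ℤ) : v (z : ℚ) = ‖FinitePlace.embedding v.maximalIdeal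
    (algebraMap (𝓞 ℚ) ℚ (eZ z))‖ := by
  rw [FinitePlace.norm_embedding_eq, eZ_coe]

lemma int_le_one (v : FinitePlace ℚ) (z : ℤ) : v (z : ℚ) ≤ 1 := by
  rw [fin_int]
  exact FinitePlace.norm_le_one ℚ v.maximalIdeal (eZ z)

lemma int_eq_one (v : FinitePlace ℚ) (z : ℤ) :
    v (z : ℚ) = 1 ↔ eZ z ∉ v.maximalIdeal.asIdeal := by
  rw [fin_int]
  exact FinitePlace.norm_eq_one_iff_notMem ℚ v.maximalIdeal (eZ z)

lemma int_lt_one (v : FinitePlace ℚ) (z : ℤ) :
    v (z : ℚ) < 1 ↔ eZ z ∈ v.maximalIdeal.asIdeal := by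
  rw [fin_int]
  exact FinitePlace.norm_lt_one_iff_mem ℚ v.maximalIdeal (eZ z)

lemma int_not_both {a c : ℤ} (h : IsCoprime a c) (v : FinitePlace ℚ)
    (ha : eZ a ∈ v.maximalIdeal.asIdeal) (hc : eZ c ∈ v.maximalIdeal.asIdeal) : False := by
  obtain ⟨x, y, hxy⟩ := h
  apply v.maximalIdeal.isPrime.ne_top
  rw [Ideal.eq_top_iff_one, ← map_one eZ, ← hxy, map_add, map_mul, map_mul]
  exact v.maximalIdeal.asIdeal.add_mem (v.maximalIdeal.asIdeal.mul_mem_left _ ha)
    (v.maximalIdeal.asIdeal.mul_mem_left _ hc)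

/-- the height of a coprime pair -/
lemma hh_rat {a c : ℤ} (h : IsCoprime a c) (hc : c ≠ 0) :
    hh ((a : ℚ), (c : ℚ)) = Real.log (max |(a : ℝ)| |(c : ℝ)|) := by
  have hx : (![(a : ℚ), (c : ℚ)] : Fin 2 → ℚ) ≠ 0 := by
    intro h0
    have := congrFun h0 1
    simp only [Matrix.cons_val_one, Matrix.cons_val_zero, Pi.zero_apply] at this
    exact hc (by exact_mod_cast this)
  unfold hh
  rw [logHeight_eq_log_mulHeight, NumberField.mulHeight_eq hx]
  have h1 : ∀ v : FinitePlace ℚ, (⨆ i, v ((![(a : ℚ), (c : ℚ)] : Fin 2 → ℚ) i)) = 1 := by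
    intro v
    rw [iSup_two]
    simp only [Matrix.cons_val_zero, Matrix.cons_val_one]
    apply le_antisymm (max_le (int_le_one v a) (int_le_one v c))
    by_cases ha : eZ a ∈ v.maximalIdeal.asIdeal
    · have hc' : eZ c ∉ v.maximalIdeal.asIdeal := fun hc => int_not_both h v ha hc
      rw [(int_eq_one v c).2 hc']
      exact le_max_right _ _
    · rw [(int_eq_one v a).2 ha]
      exact le_max_left _ _
  have h2 : ∀ w : InfinitePlace ℚ, (⨆ i, w ((![(a : ℚ), (c : ℚ)] : Fin 2 → ℚ) i)) ^ w.mult =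
      max |(a : ℝ)| |(c : ℝ)| := by
    intro w
    rw [iSup_two]
    simp only [Matrix.cons_val_zero, Matrix.cons_val_one]
    have hm : w.mult = 1 := by
      rw [InfinitePlace.mult, if_pos]
      rw [Subsingleton.elim w Rat.infinitePlace]
      exact Rat.isReal_infinitePlace
    rw [hm, pow_one, Rat.infinitePlace_apply, Rat.infinitePlace_apply]
    push_cast
    rfl
  rw [finprod_congr h1, finprod_one, mul_one, Finset.prod_congr rfl fun w _ => h2 w]
  simp

/-- the primes of a coprime triple -/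
lemma I_rat {a b c : ℤ} (hs : a + b = c) (h : IsCoprime a c) :
    I ((a : ℚ), (c : ℚ)) = {v : FinitePlace ℚ | eZ (a * b * c) ∈ v.maximalIdeal.asIdeal} := by
  ext v
  have hp := v.maximalIdeal.isPrime
  have eb : (c : ℚ) - (a : ℚ) = (b : ℚ) := by
    rw [← hs]
    push_cast
    ring
  simp only [I, Set.mem_ofPred_eq, eb]
  rw [map_mul, map_mul, hp.mul_mem_iff_mem_or_mem, hp.mul_mem_iff_mem_or_mem]
  constructor
  · intro h1
    by_contra hcon
    push Not at hcon
    obtain ⟨⟨ha, hb⟩, hc⟩ := hcon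
    apply h1
    rw [(int_eq_one v a).2 ha, (int_eq_one v b).2 hb, (int_eq_one v c).2 hc]
    exact ⟨rfl, rfl⟩
  · rintro h1 ⟨h2, h3⟩
    by_cases hc : eZ c ∈ v.maximalIdeal.asIdeal
    · have ha : eZ a ∉ v.maximalIdeal.asIdeal := fun ha => int_not_both h v ha hc
      rw [(int_eq_one v a).2 ha] at h2
      have := (int_lt_one v c).2 hc
      linarith
    · rw [(int_eq_one v c).2 hc] at h2 h3
      rw [int_eq_one] at h2 h3
      rcases h1 with (h1 | h1) | h1
      · exact h2 h1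
      · exact h3 h1
      · exact hc h1

lemma eZ_prime {p : ℕ} (hp : p.Prime) : Prime (eZ (p : ℤ)) :=
  (MulEquiv.prime_iff eZ).2 (Nat.prime_iff_prime_int.1 hp)

/-- the place of a prime -/
noncomputable def pl (p : ℕ) (hp : p.Prime) : FinitePlace ℚ :=
  FinitePlace.mk (⟨Ideal.span {eZ (p : ℤ)},
    (Ideal.span_singleton_prime (eZ_prime hp).ne_zero).2 (eZ_prime hp), by
      rw [Ne, Ideal.span_singleton_eq_bot]
      exact (eZ_prime hp).ne_zero⟩ : HeightOneSpectrum (𝓞 ℚ))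

lemma pl_ideal (p : ℕ) (hp : p.Prime) :
    (pl p hp).maximalIdeal.asIdeal = Ideal.span {eZ (p : ℤ)} := by
  unfold pl
  rw [FinitePlace.maximalIdeal_mk]

lemma Nv_pl (p : ℕ) (hp : p.Prime) : Nv (pl p hp) = p := by
  unfold Nv
  rw [pl_ideal, Ideal.absNorm_span_singleton]
  have h1 : eZ (p : ℤ) = algebraMap ℤ (𝓞 ℚ) (p : ℤ) := by
    rw [eq_intCast eZ, eq_intCast (algebraMap ℤ (𝓞 ℚ))]
  rw [h1, Algebra.norm_algebraMap, RingOfIntegers.rank, Module.finrank_self, pow_one]
  simp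

lemma pl_inj {p q : ℕ} (hp : p.Prime) (hq : q.Prime) (h : pl p hp = pl q hq) : p = q := by
  have h1 := Nv_pl p hp
  rw [h, Nv_pl q hq] at h1
  exact_mod_cast h1.symm

lemma exists_pl (v : FinitePlace ℚ) : ∃ (p : ℕ) (hp : p.Prime), pl p hp = v := by
  obtain ⟨g, hg⟩ : ∃ g : 𝓞 ℚ, v.maximalIdeal.asIdeal = Ideal.span {g} := by
    have : IsPrincipalIdealRing (𝓞 ℚ) := IsPrincipalIdealRing.of_surjective eZ eZ.surjective
    exact (IsPrincipalIdealRing.principal v.maximalIdeal.asIdeal).principal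
  have hg0 : g ≠ 0 := by
    rintro rfl
    apply v.maximalIdeal.ne_bot
    rw [hg]
    simp
  have hgp : Prime g := by
    rw [← Ideal.span_singleton_prime hg0, ← hg]
    exact v.maximalIdeal.isPrime
  obtain ⟨z, rfl⟩ := eZ.surjective g
  have hz : Prime z := (MulEquiv.prime_iff eZ).1 hgp
  have hp : z.natAbs.Prime := Int.prime_iff_natAbs_prime.1 hz
  refine ⟨z.natAbs, hp, ?_⟩
  rw [← FinitePlace.mk_maximalIdeal v]
  unfold pl
  congr 1
  apply HeightOneSpectrum.ext
  rw [hg]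
  show Ideal.span {eZ (z.natAbs : ℤ)} = Ideal.span {eZ z}
  rw [Ideal.span_singleton_eq_span_singleton]
  exact (Int.associated_natAbs z).symm.map eZ

/-- the primes dividing `n` -/
lemma rad_rat {n : ℤ} (hn : n ≠ 0) :
    {v : FinitePlace ℚ | eZ n ∈ v.maximalIdeal.asIdeal}.ncard = n.natAbs.primeFactors.card ∧
    W {v : FinitePlace ℚ | eZ n ∈ v.maximalIdeal.asIdeal} =
      Real.log ((∏ p ∈ n.natAbs.primeFactors, p : ℕ) : ℝ) := by
  classical
  have hmem : ∀ p (hp : p.Prime), pl p hp ∈ {v : FinitePlace ℚ | eZ n ∈ v.maximalIdeal.asIdeal} ↔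
      p ∣ n.natAbs := by
    intro p hp
    rw [Set.mem_ofPred_eq, pl_ideal, Ideal.mem_span_singleton, map_dvd_iff eZ, Int.natCast_dvd]
  set F : Finset (FinitePlace ℚ) := n.natAbs.primeFactors.attach.image
    (fun p => pl p.1 (Nat.prime_of_mem_primeFactors p.2)) with hF
  have hset : {v : FinitePlace ℚ | eZ n ∈ v.maximalIdeal.asIdeal} = (F : Set (FinitePlace ℚ)) := by
    ext v
    rw [hF]
    simp only [Finset.coe_image, Set.mem_image, Finset.mem_coe, Finset.mem_attach, true_and,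
      Subtype.exists]
    constructor
    · intro hv
      obtain ⟨p, hp, rfl⟩ := exists_pl v
      refine ⟨p, Nat.mem_primeFactors.2 ⟨hp, (hmem p hp).1 hv, ?_⟩, rfl⟩
      rwa [Ne, Int.natAbs_eq_zero]
    · rintro ⟨p, hp, rfl⟩
      exact (hmem p (Nat.prime_of_mem_primeFactors hp)).2 (Nat.dvd_of_mem_primeFactors hp)
  have hinj : Set.InjOn (fun p : {x // x ∈ n.natAbs.primeFactors} =>
      pl p.1 (Nat.prime_of_mem_primeFactors p.2)) (n.natAbs.primeFactors.attach : Set _) := by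
    intro p _ q _ h
    exact Subtype.ext (pl_inj _ _ h)
  constructor
  · rw [hset, Set.ncard_coe_finset, hF, Finset.card_image_of_injOn hinj, Finset.card_attach]
  · rw [hset, W_eq (Finset.finite_toSet F), Finset.finite_toSet_toFinset, hF,
      Finset.sum_image hinj]
    simp only [Nv_pl]
    rw [Finset.sum_attach n.natAbs.primeFactors (fun p : ℕ => Real.log (p : ℝ))]
    push_cast
    rw [Real.log_prod]
    intro p hp
    exact_mod_cast (Nat.prime_of_mem_primeFactors hp).ne_zero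

/-- coprime coordinates -/
lemma exists_coprime_rat (p : ℚ × ℚ) (hp : p.2 ≠ 0) : ∃ (a c : ℤ) (l : ℚ), l ≠ 0 ∧ 0 < c ∧
    IsCoprime a c ∧ p = (l * a, l * c) := by
  set t : ℚ := p.1 / p.2 with ht
  have hd : (t.den : ℚ) ≠ 0 := by exact_mod_cast t.den_nz
  refine ⟨t.num, t.den, p.2 / t.den, div_ne_zero hp hd, by exact_mod_cast t.pos, ?_, ?_⟩
  · rw [Int.isCoprime_iff_gcd_eq_one]
    exact t.reduced
  · ext
    · simp only
      have h1 : (t.num : ℚ) = t * t.den := by
        rw [Rat.mul_den_eq_num]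
      rw [h1]
      have h2 : p.2 / t.den * (t * t.den) = p.2 * t := by
        field_simp
      rw [h2, ht]
      field_simp
    · simp only
      push_cast
      field_simp

lemma hh_smul_rat {l : ℚ} (hl : l ≠ 0) (a c : ℚ) : hh (l * a, l * c) = hh (a, c) := by
  unfold hh
  have : (![l * a, l * c] : Fin 2 → ℚ) = l • ![a, c] := by
    funext i
    fin_cases i <;> simp
  simp only [this]
  exact logHeight_smul_eq_logHeight _ hl

end Pool.Agent.V8H8.HS
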